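import Pool.Agent.Helper22.ML.W4a
import Pool.Agent.Helper22.M.W4
import Pool.Agent.Helper45.ML.Defs
import Pool.Agent.Helper79.M.W3
import Pool.Agent.Helper79.L.FR

/-!
# Project ML, block W4: every open coset contains an element with finitely many fixed classes
-/

set_option autoImplicit false

namespace Pool.Agent.Helper22.ML

open VC IntermediateField NumberField IsDedekindDomain Pool.Agent.SC
open Pool.Agent.L
open Pool.Agent.M (UR map_UR99 map_L0_99)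
open Pool.Agent.HG (Pr nm)
open Pool.Agent.Helper22.M

/-! ## Finitely many fixed classes -/

section fixed

variable {k K0 E U : Type} [Field k] [NumberField k] [Field K0] [Field E] [Field U] [Algebra k K0]
    [Algebra k E] [Algebra E U] [Algebra K0 U] [Algebra k U] [IsScalarTower k E U]
    [IsScalarTower k K0 U]

omit [IsScalarTower k E U] [IsScalarTower k K0 U] in
/-- **A power of a Frobenius element has finitely many fixed classes.** -/
theorem frob_fixML {n0 ℓ : ℕ} (hℓ : ℓ.Prime) {h : K0} {r : U} (G : Pool.Agent.LN.Geo k K0 E U n0 h r) :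
    ∃ S : Finset E, (∀ s ∈ S, s ≠ 0) ∧
    ∀ (c : k) (Φ : (E ≃ₐ[k] E) →* (U ≃+* U)), Pool.Agent.LN.Act (K0 := K0) n0 r c Φ →
    ∀ (O : ValuationSubring E) (F : E ≃ₐ[k] E) (p f : ℕ), IsFrobAt O F.toRingEquiv p f →
    (∀ s ∈ S, O.valuation s = 1) → ∃ T : Finset U, ∀ (w : U) (j : ℕ),
      UR E K0 (ℓ ^ j) w → Φ F w * w⁻¹ ∈ L0 E K0 (U := U) →
        ∃ t ∈ T, t ≠ 0 ∧ w * t⁻¹ ∈ L0 E K0 (U := U) := by
  classical
  have hcl := G.clE
  have hcE : CharZero E := charZero_of_injective_algebraMap (algebraMap k E).injective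
  have halg := G.algE
  obtain ⟨Z, S, hZY, hS, hmain⟩ := finite_fixedML (L0 E K0 (U := U)) G.ff ℓ hℓ
  refine ⟨S, hS, fun c Φ hΦ O F p f hF hSO => ?_⟩
  -- a power of `F` fixes `Z`
  obtain ⟨LZ, hLZ, hLZ'⟩ := exists_cont29 hΦ.cont Z
  obtain ⟨α, hα⟩ := Field.exists_primitive_element k LZ
  obtain ⟨n, hn, hnα⟩ := hF.orb (α : E)
  have hfixn : ∀ x ∈ LZ, (F ^ n) x = x := by
    have h1 : ∀ x ∈ k⟮α⟯, (F ^ n) (x : E) = x := by
      intro x hx
      induction hx using IntermediateField.adjoin_induction with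
      | mem x hx =>
        rw [Set.mem_singleton_iff] at hx
        rw [hx, iter29]
        exact hnα
      | algebraMap x => exact (F ^ n).commutes x
      | add x y _ _ hx hy =>
        change (F ^ n) ((x : E) + y) = x + y
        rw [map_add, hx, hy]
      | inv x _ hx =>
        change (F ^ n) ((x : E)⁻¹) = (x : E)⁻¹
        rw [map_inv₀, hx]
      | mul x y _ _ hx hy =>
        change (F ^ n) ((x : E) * y) = x * y
        rw [map_mul, hx, hy]
    intro x hx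
    exact h1 ⟨x, hx⟩ (by rw [hα]; exact mem_top)
  obtain ⟨M, hM⟩ := hmain O (F ^ n).toRingEquiv p (f * n) (Φ (F ^ n)) (frob_pow29 hF hn) hSO
    (fun c => hΦ.const _ c) (hLZ' _ hfixn)
  obtain ⟨T, hT, hT'⟩ := exists_max22 {w : U | (∃ j, UR E K0 (ℓ ^ j) w) ∧
    Φ F w * w⁻¹ ∈ L0 E K0 (U := U)} (fun a b => a * b⁻¹ ∈ L0 E K0 (U := U)) M (by
      intro w hw
      refine hM w (fun i => (hw i).1) fun i => ?_
      obtain ⟨j, hj⟩ := (hw i).1
      rw [map_pow]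
      exact fix_pow22 (Φ F) F (hΦ.const F) (hΦ.fixK F) hj.1 (hw i).2 n) (by
      rintro a ⟨⟨j, hj⟩, -⟩
      rw [mul_inv_cancel₀ hj.1]
      exact one_mem _) (by
      intro a b hab
      have h1 : b * a⁻¹ = (a * b⁻¹)⁻¹ := by rw [mul_inv, inv_inv, mul_comm]
      rw [h1]
      exact inv_mem hab)
  refine ⟨T, fun w j hw hfw => ?_⟩
  obtain ⟨t, ht, htw⟩ := hT' w ⟨⟨j, hw⟩, hfw⟩
  obtain ⟨⟨j', hj'⟩, -⟩ := hT t ht
  exact ⟨t, ht, hj'.1, htw⟩

end fixed

/-! ## The theorem -/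

/-- **BLOCK W4.** -/
theorem w4_of : Pool.Agent.M.StmtW3 → Pool.Agent.L.StmtFR → Pool.Agent.ML.StmtW4 := by
  classical
  intro hW3 hFR k K0 E U _ _ _ _ _ _ _ _ _ _ _ _ n0 ℓ h r hn0 hℓ hℓn hμ G c Φ hc hΦ L hL x
  have hcl := G.clE
  have hcE : CharZero E := charZero_of_injective_algebraMap (algebraMap k E).injective
  have halg := G.algE
  have hclo : IsAlgClosure k E := ⟨inferInstance, inferInstance⟩
  have hnor : Normal k E := IsAlgClosure.normal k E
  obtain ⟨S, hS, hfrob⟩ := frob_fixML hℓ G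
  obtain ⟨Bad1, hBad1, hAR⟩ := stmtAR k E S ∅ hS
  -- the normal closure
  obtain ⟨L', hLL', hfd, hno⟩ : ∃ L' : IntermediateField k E, L ≤ L' ∧ FiniteDimensional k L' ∧
      Normal k L' := ⟨IntermediateField.normalClosure k L E, IntermediateField.le_normalClosure L,
        inferInstance, inferInstance⟩
  have hgal : IsGalois k L' := ⟨⟩
  have hnf : NumberField L' := NumberField.of_module_finite k L'
  have hres : ∀ (g : E ≃ₐ[k] E) (y : L'), ((g.restrictNormal L' y : L') : E) = g y :=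
    fun g y => g.restrictNormal_commutes L' y
  let x' : L' ≃ₐ[k] L' := x.restrictNormal L'
  let C : Set (L' ≃ₐ[k] L') := {σ | ∃ γ : L' ≃ₐ[k] L',
    Subgroup.zpowers (γ * σ * γ⁻¹) = Subgroup.zpowers x'}
  have hconj : ∀ (γ σ τ : L' ≃ₐ[k] L'), Subgroup.zpowers τ = Subgroup.zpowers σ →
      Subgroup.zpowers (γ * τ * γ⁻¹) = Subgroup.zpowers (γ * σ * γ⁻¹) := by
    intro γ σ τ hτ
    have h1 : ∀ ρ : L' ≃ₐ[k] L', Subgroup.zpowers (γ * ρ * γ⁻¹) =
        (Subgroup.zpowers ρ).map (MulAut.conj γ).toMonoidHom := by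
      intro ρ
      rw [MonoidHom.map_zpowers]
      rfl
    rw [h1, h1, hτ]
  obtain ⟨B, hB⟩ := exists_B22 k
  obtain ⟨C₀, Bad2, Q, hBad2, hQ, hsum⟩ := hW3 k L' C (by
    rintro σ ⟨γ, hγ⟩ τ hτ
    exact ⟨γ, by rw [hconj γ σ τ hτ, hγ]⟩) (by
    rintro σ ⟨γ, hγ⟩ g
    refine ⟨γ * g⁻¹, ?_⟩
    rw [← hγ]
    congr 1
    group) B hB
  have hδ : 0 < (Nat.card C : ℝ) / Nat.card (L' ≃ₐ[k] L') := by
    have h1 : 0 < Nat.card C := by
      have : Nonempty C := ⟨⟨x', 1, by simp⟩⟩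
      exact Nat.card_pos
    have h2 : 0 < Nat.card (L' ≃ₐ[k] L') := Nat.card_pos
    positivity
  obtain ⟨v, hvQ, hvB⟩ := exists_notMem22 hδ B hsum (Bad1 ∪ Bad2) (hBad1.union hBad2)
  obtain ⟨O, F, p, f, hD⟩ := hFR k E v
  -- the prime of `L'` below `O`
  have hmemO : ∀ b : 𝓞 L', ((b : L') : E) ∈ O := fun b =>
    int_mem22 O ((RingOfIntegers.isIntegral_coe b).map (L'.val.restrictScalars ℤ))
  let ρ : 𝓞 L' →+* O := ((algebraMap L' E).comp (algebraMap (𝓞 L') L')).codRestrict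
    O.toSubring hmemO
  let I : Ideal (𝓞 L') := (IsLocalRing.maximalIdeal O).comap ρ
  have hI : ∀ b : 𝓞 L', b ∈ I ↔ O.valuation ((b : L') : E) < 1 := by
    intro b
    rw [Ideal.mem_comap, O.valuation_lt_one_iff]
    rfl
  have hval : ∀ a : 𝓞 k, O.valuation (algebraMap k E (a : k)) < 1 ↔ a ∈ v.asIdeal := by
    intro a
    rw [← HeightOneSpectrum.valuation_lt_one_iff_mem (K := k) v a]
    rcases eq_or_ne (a : k) 0 with h0 | h0
    · rw [h0, map_zero, map_zero]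
      have h1 : v.valuation k (algebraMap (𝓞 k) k a) = 0 := by
        rw [show (algebraMap (𝓞 k) k a) = 0 from h0, map_zero]
      exact ⟨fun _ => lt_of_le_of_lt h1.le zero_lt_one, fun _ => zero_lt_one⟩
    · have h1 := hD.above ((a : k)⁻¹)
      rw [map_inv₀, map_inv₀, ← O.valuation_le_one_iff, map_inv₀,
        inv_le_one₀ (zero_lt_iff.2 ((Valuation.ne_zero_iff _).2 ((_root_.map_ne_zero _).2 h0))),
        inv_le_one₀ (zero_lt_iff.2 ((Valuation.ne_zero_iff _).2 h0))] at h1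
      rw [← not_le, ← not_le, h1]
  have hcomap : I.comap (algebraMap (𝓞 k) (𝓞 L')) = v.asIdeal := by
    ext a
    rw [Ideal.mem_comap, hI, ← hval]
    rfl
  have hIp : I.IsPrime := Ideal.IsPrime.comap ρ
  have hIb : I ≠ ⊥ := by
    intro h0
    apply v.ne_bot
    rw [← hcomap, h0, eq_bot_iff]
    intro a ha
    rw [Ideal.mem_comap, Ideal.mem_bot] at ha
    rw [Ideal.mem_bot]
    exact (FaithfulSMul.algebraMap_injective (𝓞 k) (𝓞 L')) (by rw [ha, map_zero])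
  obtain ⟨hO1, hO2⟩ := val_below22 O (algebraMap L' E) ⟨I, hIp, hIb⟩ hI
  have hFC : F.restrictNormal L' ∈ C := by
    refine (hQ v (fun h => hvB (Or.inr h)) ⟨I, hIp, hIb⟩ (F.restrictNormal L') hcomap ?_).1 hvQ
    intro z hz
    apply hO2
    have h1 := hD.frob.frob _ (hO1 z hz)
    rw [← hD.norm] at h1
    have h2 : algebraMap L' E (F.restrictNormal L' z - z ^ nm v) =
        F.toRingEquiv (algebraMap L' E z) - (algebraMap L' E z) ^ nm v := by
      rw [map_sub, map_pow]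
      congr 1
      exact hres F z
    rw [h2]
    exact h1
  obtain ⟨γ', hγ'⟩ := hFC
  obtain ⟨γ, hγ⟩ := AlgEquiv.restrictNormalHom_surjective (F := k) (K₁ := L') E γ'
  have hγ1 : γ.restrictNormal L' = γ' := hγ
  obtain ⟨i, hi, hix⟩ : ∃ i : ℕ, 0 < i ∧ x' = (γ' * F.restrictNormal L' * γ'⁻¹) ^ i := by
    have h1 : x' ∈ Subgroup.zpowers (γ' * F.restrictNormal L' * γ'⁻¹) := by
      rw [hγ']
      exact Subgroup.mem_zpowers x'
    have h2 : IsOfFinOrder (γ' * F.restrictNormal L' * γ'⁻¹) := isOfFinOrder_of_finite _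
    rw [← h2.mem_powers_iff_mem_zpowers] at h1
    obtain ⟨i, hi⟩ := h1
    refine ⟨i + orderOf (γ' * F.restrictNormal L' * γ'⁻¹), by
      have := h2.orderOf_pos
      omega, ?_⟩
    rw [pow_add, pow_orderOf_eq_one, mul_one]
    exact hi.symm
  obtain ⟨T, hT⟩ := hfrob c Φ hΦ O (F ^ i) p (f * i) (frob_pow29 hD.frob hi)
    (hAR v (fun h => hvB (Or.inl h)) O hD.above).1
  refine ⟨γ * F ^ i * γ⁻¹, ?_, T.image (Φ γ), ?_⟩
  · intro z hz
    have hhom : ∀ g g' : E ≃ₐ[k] E, (g * g').restrictNormal L' =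
        g.restrictNormal L' * g'.restrictNormal L' := fun g g' =>
      map_mul (AlgEquiv.restrictNormalHom (F := k) (K₁ := E) L') g g'
    have hpow : (F ^ i).restrictNormal L' = (F.restrictNormal L') ^ i :=
      map_pow (AlgEquiv.restrictNormalHom (F := k) (K₁ := E) L') F i
    have hinv : (γ⁻¹).restrictNormal L' = (γ.restrictNormal L')⁻¹ :=
      map_inv (AlgEquiv.restrictNormalHom (F := k) (K₁ := E) L') γ
    have h1 : (γ * F ^ i * γ⁻¹).restrictNormal L' = x' := by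
      rw [hhom, hhom, hpow, hinv, hγ1, hix, conj_pow]
    have h2 := hres (γ * F ^ i * γ⁻¹) ⟨z, hLL' hz⟩
    rw [h1] at h2
    rw [← h2]
    exact hres x ⟨z, hLL' hz⟩
  · intro w j hw hfw
    have hw0 := hw.1
    have hinv : ∀ u : U, Φ γ (Φ γ⁻¹ u) = u := by
      intro u
      rw [← RingAut.mul_apply, ← map_mul, mul_inv_cancel, map_one]
      rfl
    have hinv' : ∀ u : U, Φ γ⁻¹ (Φ γ u) = u := by
      intro u
      rw [← RingAut.mul_apply, ← map_mul, inv_mul_cancel, map_one]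
      rfl
    have hUR : UR E K0 (ℓ ^ j) (Φ γ⁻¹ w) :=
      map_UR99 G.ff (Φ γ⁻¹) (Φ γ) γ⁻¹ (hΦ.const _) (hΦ.fixK _)
        (fun e => hΦ.const _ e) (hΦ.fixK _) hinv' hinv hw
    have hfw' : Φ (F ^ i) (Φ γ⁻¹ w) * (Φ γ⁻¹ w)⁻¹ ∈ L0 E K0 (U := U) := by
      have h1 : Φ (F ^ i) (Φ γ⁻¹ w) * (Φ γ⁻¹ w)⁻¹ = Φ γ⁻¹ (Φ (γ * F ^ i * γ⁻¹) w * w⁻¹) := by
        rw [map_mul (Φ γ⁻¹), map_inv₀, map_mul Φ, map_mul Φ, RingAut.mul_apply, RingAut.mul_apply,
          hinv']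
      rw [h1]
      exact map_L0_99 (Φ γ⁻¹) γ⁻¹ (hΦ.const _) (hΦ.fixK _) hfw
    obtain ⟨t, ht, ht0, htw⟩ := hT _ j hUR hfw'
    refine ⟨Φ γ t, Finset.mem_image_of_mem _ ht, (map_ne_zero _).2 ht0, ?_⟩
    have h1 : w * (Φ γ t)⁻¹ = Φ γ (Φ γ⁻¹ w * t⁻¹) := by
      rw [map_mul, map_inv₀, hinv]
    rw [h1]
    exact map_L0_99 (Φ γ) γ (hΦ.const _) (hΦ.fixK _) htw

end Pool.Agent.Helper22.ML

/-- **BLOCK W4.** -/
theorem Pool.Agent.ML.w4 : Pool.Agent.ML.StmtW4 :=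
  Pool.Agent.Helper22.ML.w4_of Pool.Agent.M.w3 Pool.Agent.L.stmtFR
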